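import Pool.Agent.H347Z.CosetProof

set_option autoImplicit false

namespace Pool.Agent.Results.MP_e70d00_co.ACounter

open Pool.Agent.H347Z.Cosets

/-- For every `t ≥ 1` and every constant `C₀`, for all large `n`, there are `ε > 0` and a family `A`
of at most `(n - t + 1)!` permutations whose characteristic function `f` satisfies
`E[(f - f_t)^2] ≤ ε E[f]`, while every union `C` of `t`-cosets has
`|A ∆ C| > C₀ (ε + 1/n) |A|`. -/
theorem result (t : ℕ) (ht : 1 ≤ t) (C₀ : ℝ) : ∃ N : ℕ, ∀ n : ℕ, N ≤ n →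
    t ≤ n ∧ ∃ (ε : ℝ) (A : Finset (Equiv.Perm (Fin n))), 0 < ε ∧
      A.card ≤ (n - (t - 1)).factorial ∧
      expect (fun σ => (ind A σ - (U n t).starProjection (ind A) σ) ^ 2) ≤
        ε * expect (fun σ => ind A σ) ∧
      ∀ C : Finset (Equiv.Perm (Fin n)), IsUnionOfCosets t C →
        C₀ * (ε + 1 / (n : ℝ)) * (A.card : ℝ) < ((symmDiff A C).card : ℝ) :=
  main t ht C₀

end Pool.Agent.Results.MP_e70d00_co.ACounter
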